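import Pool.Agent.Helper67.ML.TopAux
import Pool.Agent.Helper40.ML.CubicNeZero
import Pool.Agent.Helper14.ML.NS

/-!
MP_3d065d_co, block ML-TOP: the abstract topological theorem.
-/

set_option autoImplicit false
namespace Pool.Agent.Helper63.ML
open Complex Metric
open scoped ComplexConjugate

theorem top_main {X : Type*} [TopologicalSpace X] [CompactSpace X] [Nonempty X]
    (r : X → X) (hr : Continuous r) (hr3 : ∀ x, r (r (r x)) = x)
    (W W' : ℂ → X → ℂ) (hW : Continuous (Function.uncurry W))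
    (hW' : Continuous (Function.uncurry W'))
    (hWr : ∀ c x, W c (r x) = om * W c x) (hWr' : ∀ c x, W' c (r x) = conj om * W' c x)
    (hb : ∀ c x, ‖c‖ = 1 → W c x = c ^ 2 * W 1 x) (hb' : ∀ c x, ‖c‖ = 1 → W' c x = c ^ 2 * W' 1 x)
    (hpat : ∀ c ∈ closedBall (0 : ℂ) 1, ∀ x y, Maxi W W' c x → Maxi W W' c y →
      Pat (Bf W W' c x y))
    (htr : ∀ c ∈ closedBall (0 : ℂ) 1, ∀ x y z, Maxi W W' c x → Maxi W W' c y → Maxi W W' c z →
      0 < (Bf W W' c x y).re → 0 < (Bf W W' c y z).re → 0 < (Bf W W' c x z).re) : False := by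
  have _ := hr
  exact Top.top_main_aux no_section
    (fun r hr3 w w' m hm hmr hw hw' hpos hpat htr =>
      cubic_ne_zero r hr3 w w' m hm hmr hw hw' hpos hpat htr)
    r hr3 W W' hW hW' hWr hWr' hb hb' hpat htr

end Pool.Agent.Helper63.ML
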