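import Pool.Agent.Helper63.ML.Defs

/-!
MP_3d065d_co, block ML-TOP: the abstract topological theorem. Here the two inputs (no section,
nonvanishing of the cubic sum) are hypotheses.
-/

set_option autoImplicit false
namespace Pool.Agent.Helper63.ML
open Complex Metric Set
open scoped ComplexConjugate

namespace Top

theorem isOpen_pat : IsOpen {a : ℂ | Pat a} := by
  unfold Pat
  simp only [ofPred_or]
  refine IsOpen.union ?_ (IsOpen.union ?_ ?_) <;> refine IsOpen.and ?_ (IsOpen.and ?_ ?_) <;>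
    exact isOpen_lt (by fun_prop) (by fun_prop)

theorem pat_re_ne {a : ℂ} (h : Pat a) : a.re ≠ 0 := by
  rcases h with h | h | h
  · exact h.1.ne'
  · exact h.1.ne
  · exact h.1.ne

theorem om_mul_conj : om * conj om = 1 := by
  apply Complex.ext
  · simp only [om, mul_re, conj_re, conj_im, one_re]
    nlinarith [Real.mul_self_sqrt (show (0 : ℝ) ≤ 3 by norm_num)]
  · simp only [om, mul_im, conj_re, conj_im, one_im]
    ring

section

variable {X : Type*} (W W' : ℂ → X → ℂ)

/-- the term of the cubic sum -/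
noncomputable def term {ι : Type*} (w w' : ι → ℂ) (m : ι → ℝ) (x y z : ι) : ℂ :=
  if 0 < (w x * conj (w y) - conj (w' x) * w' y).re ∧
        0 < (w y * conj (w z) - conj (w' y) * w' z).re ∧
        0 < (w x * conj (w z) - conj (w' x) * w' z).re
      then ((m x * m y * m z : ℝ) : ℂ) * (w x * w y * w z) else 0

variable [TopologicalSpace X]

theorem continuous_Bf (hW : Continuous (Function.uncurry W))
    (hW' : Continuous (Function.uncurry W')) :
    Continuous (fun p : ℂ × X × X => Bf W W' p.1 p.2.1 p.2.2) := by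
  have h1 : Continuous (fun p : ℂ × X × X => W p.1 p.2.1) :=
    hW.comp (f := fun p : ℂ × X × X => (p.1, p.2.1)) (by fun_prop)
  have h2 : Continuous (fun p : ℂ × X × X => W p.1 p.2.2) :=
    hW.comp (f := fun p : ℂ × X × X => (p.1, p.2.2)) (by fun_prop)
  have h3 : Continuous (fun p : ℂ × X × X => W' p.1 p.2.1) :=
    hW'.comp (f := fun p : ℂ × X × X => (p.1, p.2.1)) (by fun_prop)
  have h4 : Continuous (fun p : ℂ × X × X => W' p.1 p.2.2) :=
    hW'.comp (f := fun p : ℂ × X × X => (p.1, p.2.2)) (by fun_prop)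
  have hc := Complex.continuous_conj
  exact (h1.mul (hc.comp h2)).sub ((hc.comp h3).mul h4)

/-- the diagonal value -/
noncomputable def diag (c : ℂ) (x : X) : ℝ := (Bf W W' c x x).re

/-- the maximum -/
noncomputable def mx (c : ℂ) : ℝ := sSup (diag W W' c '' univ)

/-- the gap -/
noncomputable def gap (c : ℂ) (x : X) : ℝ := mx W W' c - diag W W' c x

variable (hW : Continuous (Function.uncurry W)) (hW' : Continuous (Function.uncurry W'))

include hW hW'

theorem continuous_diag : Continuous (Function.uncurry (diag W W')) := by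
  have := (continuous_Bf W W' hW hW').comp
    (f := fun p : ℂ × X => (p.1, p.2, p.2)) (by fun_prop)
  exact Complex.continuous_re.comp this

variable [CompactSpace X]

theorem continuous_mx : Continuous (mx W W') :=
  isCompact_univ.continuous_sSup (continuous_diag W W' hW hW')

theorem continuous_gap : Continuous (fun p : ℂ × X => gap W W' p.1 p.2) :=
  ((continuous_mx W W' hW hW').comp continuous_fst).sub (continuous_diag W W' hW hW')

theorem gap_nonneg (c : ℂ) (x : X) : 0 ≤ gap W W' c x := by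
  unfold gap
  rw [sub_nonneg]
  refine le_csSup ?_ ⟨x, mem_univ x, rfl⟩
  refine (isCompact_univ.image ?_).bddAbove
  exact (continuous_diag W W' hW hW').comp (f := fun x => (c, x)) (by fun_prop)

theorem exists_gap_zero [Nonempty X] (c : ℂ) : ∃ x : X, gap W W' c x = 0 := by
  obtain ⟨x, -, hx⟩ := (isCompact_univ (X := X)).exists_sSup_image_eq univ_nonempty
    (f := diag W W' c)
    ((continuous_diag W W' hW hW').comp (f := fun x => (c, x)) (by fun_prop)).continuousOn
  exact ⟨x, by unfold gap mx; rw [hx, sub_self]⟩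

theorem maxi_of_gap {c : ℂ} {x : X} (h : gap W W' c x = 0) : Maxi W W' c x := by
  intro y
  have h1 := gap_nonneg W W' hW hW' c y
  unfold gap at h h1
  have : diag W W' c y ≤ diag W W' c x := by linarith
  exact this

/-- uniform version of the pattern and of transitivity -/
theorem exists_eps
    (hpat : ∀ c ∈ closedBall (0 : ℂ) 1, ∀ x y, Maxi W W' c x → Maxi W W' c y →
      Pat (Bf W W' c x y))
    (htr : ∀ c ∈ closedBall (0 : ℂ) 1, ∀ x y z, Maxi W W' c x → Maxi W W' c y → Maxi W W' c z →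
      0 < (Bf W W' c x y).re → 0 < (Bf W W' c y z).re → 0 < (Bf W W' c x z).re) :
    ∃ e : ℝ, 0 < e ∧ ∀ c ∈ closedBall (0 : ℂ) 1, ∀ x y z, gap W W' c x < e → gap W W' c y < e →
      gap W W' c z < e → Pat (Bf W W' c x y) ∧
      (0 < (Bf W W' c x y).re → 0 < (Bf W W' c y z).re → 0 < (Bf W W' c x z).re) := by
  have hB := continuous_Bf W W' hW hW'
  have hxy : Continuous (fun p : ℂ × X × X × X => Bf W W' p.1 p.2.1 p.2.2.1) :=
    hB.comp (f := fun p : ℂ × X × X × X => (p.1, p.2.1, p.2.2.1)) (by fun_prop)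
  have hyz : Continuous (fun p : ℂ × X × X × X => Bf W W' p.1 p.2.2.1 p.2.2.2) :=
    hB.comp (f := fun p : ℂ × X × X × X => (p.1, p.2.2.1, p.2.2.2)) (by fun_prop)
  have hxz : Continuous (fun p : ℂ × X × X × X => Bf W W' p.1 p.2.1 p.2.2.2) :=
    hB.comp (f := fun p : ℂ × X × X × X => (p.1, p.2.1, p.2.2.2)) (by fun_prop)
  let G : Set (ℂ × X × X × X) := {p | Pat (Bf W W' p.1 p.2.1 p.2.2.1) ∧
    ((Bf W W' p.1 p.2.1 p.2.2.1).re < 0 ∨ (Bf W W' p.1 p.2.2.1 p.2.2.2).re < 0 ∨
      0 < (Bf W W' p.1 p.2.1 p.2.2.2).re)}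
  have hG : IsOpen G := by
    refine IsOpen.and (isOpen_pat.preimage hxy) ?_
    rw [ofPred_or, ofPred_or]
    refine IsOpen.union ?_ (IsOpen.union ?_ ?_)
    · exact isOpen_lt (Complex.continuous_re.comp hxy) continuous_const
    · exact isOpen_lt (Complex.continuous_re.comp hyz) continuous_const
    · exact isOpen_lt continuous_const (Complex.continuous_re.comp hxz)
  have hC : IsCompact ((closedBall (0 : ℂ) 1 ×ˢ univ) ∩ Gᶜ : Set (ℂ × X × X × X)) :=
    ((isCompact_closedBall 0 1).prod isCompact_univ).inter_right hG.isClosed_compl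
  have hg := continuous_gap W W' hW hW'
  have hφ : Continuous (fun p : ℂ × X × X × X =>
      gap W W' p.1 p.2.1 + gap W W' p.1 p.2.2.1 + gap W W' p.1 p.2.2.2) := by
    refine Continuous.add (Continuous.add ?_ ?_) ?_
    · exact hg.comp (f := fun p : ℂ × X × X × X => (p.1, p.2.1)) (by fun_prop)
    · exact hg.comp (f := fun p : ℂ × X × X × X => (p.1, p.2.2.1)) (by fun_prop)
    · exact hg.comp (f := fun p : ℂ × X × X × X => (p.1, p.2.2.2)) (by fun_prop)
  obtain ⟨e, he, hle⟩ := hC.exists_forall_le' (a := 0) hφ.continuousOn (by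
    rintro ⟨c, x, y, z⟩ ⟨⟨hc, -⟩, hnot⟩
    have gx := gap_nonneg W W' hW hW' c x
    have gy := gap_nonneg W W' hW hW' c y
    have gz := gap_nonneg W W' hW hW' c z
    by_contra hle
    rw [not_lt] at hle
    change gap W W' c x + gap W W' c y + gap W W' c z ≤ 0 at hle
    have mx := maxi_of_gap W W' hW hW' (show gap W W' c x = 0 by linarith)
    have my := maxi_of_gap W W' hW hW' (show gap W W' c y = 0 by linarith)
    have mz := maxi_of_gap W W' hW hW' (show gap W W' c z = 0 by linarith)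
    apply hnot
    refine ⟨hpat c hc x y mx my, ?_⟩
    change (Bf W W' c x y).re < 0 ∨ (Bf W W' c y z).re < 0 ∨ 0 < (Bf W W' c x z).re
    rcases lt_or_gt_of_ne (pat_re_ne (hpat c hc x y mx my)) with h1 | h1
    · exact Or.inl h1
    · rcases lt_or_gt_of_ne (pat_re_ne (hpat c hc y z my mz)) with h2 | h2
      · exact Or.inr (Or.inl h2)
      · exact Or.inr (Or.inr (htr c hc x y z mx my mz h1 h2)))
  refine ⟨e / 3, by positivity, fun c hc x y z hx hy hz => ?_⟩
  have hmem : (c, x, y, z) ∈ G := by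
    by_contra hnot
    have := hle (c, x, y, z) ⟨⟨hc, mem_univ _⟩, hnot⟩
    change e ≤ gap W W' c x + gap W W' c y + gap W W' c z at this
    linarith
  obtain ⟨h1, h2⟩ := hmem
  refine ⟨h1, fun h3 h4 => ?_⟩
  change (Bf W W' c x y).re < 0 ∨ (Bf W W' c y z).re < 0 ∨ 0 < (Bf W W' c x z).re at h2
  rcases h2 with h2 | h2 | h2
  · exact absurd h2 h3.not_gt
  · exact absurd h2 h4.not_gt
  · exact h2

end

section

variable {X : Type*} (W W' : ℂ → X → ℂ) [TopologicalSpace X] [CompactSpace X]

/-- one term of the cubic sum is continuous -/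
theorem continuousAt_term {ι : Type*} (pt : ι → X)
    (hW : Continuous (Function.uncurry W)) (hW' : Continuous (Function.uncurry W')) {e : ℝ}
    {c₀ : ℂ}
    (hP : ∀ x y z, gap W W' c₀ x < e → gap W W' c₀ y < e → gap W W' c₀ z < e →
      Pat (Bf W W' c₀ x y)) (x y z : ι) :
    ContinuousAt (fun c => term (fun i => W c (pt i)) (fun i => W' c (pt i))
      (fun i => max 0 (e - gap W W' c (pt i))) x y z) c₀ := by
  have hWx : ∀ i, Continuous (fun c => W c (pt i)) := fun i =>
    hW.comp (f := fun c => (c, pt i)) (by fun_prop)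
  have hm : ∀ i, Continuous (fun c => max 0 (e - gap W W' c (pt i))) := fun i =>
    continuous_const.max (continuous_const.sub
      ((continuous_gap W W' hW hW').comp (f := fun c : ℂ => (c, pt i)) (by fun_prop)))
  have hB : ∀ i j, Continuous (fun c => (Bf W W' c (pt i) (pt j)).re) := fun i j =>
    Complex.continuous_re.comp ((continuous_Bf W W' hW hW').comp
      (f := fun c : ℂ => (c, pt i, pt j)) (by fun_prop))
  have hprod : Continuous (fun c =>
      (((max 0 (e - gap W W' c (pt x))) * (max 0 (e - gap W W' c (pt y))) *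
        (max 0 (e - gap W W' c (pt z))) : ℝ) : ℂ) * (W c (pt x) * W c (pt y) * W c (pt z))) := by
    refine Continuous.mul ?_ (((hWx x).mul (hWx y)).mul (hWx z))
    exact Complex.continuous_ofReal.comp (((hm x).mul (hm y)).mul (hm z))
  by_cases hz : max 0 (e - gap W W' c₀ (pt x)) * max 0 (e - gap W W' c₀ (pt y)) *
      max 0 (e - gap W W' c₀ (pt z)) = 0
  · -- the product tends to `0`
    have h0 : term (fun i => W c₀ (pt i)) (fun i => W' c₀ (pt i))
        (fun i => max 0 (e - gap W W' c₀ (pt i))) x y z = 0 := by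
      unfold term
      split_ifs with h
      · rw [hz]; simp
      · rfl
    rw [ContinuousAt, h0]
    refine squeeze_zero_norm (a := fun c => ‖(((max 0 (e - gap W W' c (pt x))) *
      (max 0 (e - gap W W' c (pt y))) * (max 0 (e - gap W W' c (pt z))) : ℝ) : ℂ) *
      (W c (pt x) * W c (pt y) * W c (pt z))‖) ?_ ?_
    · intro c
      unfold term
      split_ifs with h
      · exact le_rfl
      · rw [norm_zero]; exact norm_nonneg _
    · have := (hprod.norm).tendsto c₀
      rw [hz] at this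
      simpa using this
  · -- the signs are locally constant
    have hx : gap W W' c₀ (pt x) < e := by
      by_contra hcon
      apply hz
      rw [max_eq_left (a := (0 : ℝ)) (b := e - gap W W' c₀ (pt x)) (by linarith)]
      ring
    have hy : gap W W' c₀ (pt y) < e := by
      by_contra hcon
      apply hz
      rw [max_eq_left (a := (0 : ℝ)) (b := e - gap W W' c₀ (pt y)) (by linarith)]
      ring
    have hzz : gap W W' c₀ (pt z) < e := by
      by_contra hcon
      apply hz
      rw [max_eq_left (a := (0 : ℝ)) (b := e - gap W W' c₀ (pt z)) (by linarith)]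
      ring
    have key : ∀ i j, gap W W' c₀ (pt i) < e → gap W W' c₀ (pt j) < e →
        ∀ᶠ c in nhds c₀, (0 < (Bf W W' c (pt i) (pt j)).re ↔
          0 < (Bf W W' c₀ (pt i) (pt j)).re) := by
      intro i j hi hj
      have hne := pat_re_ne (hP (pt i) (pt j) (pt j) hi hj hj)
      rcases lt_or_gt_of_ne hne with h | h
      · filter_upwards [(hB i j).continuousAt.eventually_lt continuousAt_const h] with c hc
        exact ⟨fun h1 => absurd h1 hc.not_gt, fun h1 => absurd h1 h.not_gt⟩
      · filter_upwards [continuousAt_const.eventually_lt (hB i j).continuousAt h] with c hc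
        exact ⟨fun _ => h, fun _ => hc⟩
    by_cases hcond : 0 < (Bf W W' c₀ (pt x) (pt y)).re ∧ 0 < (Bf W W' c₀ (pt y) (pt z)).re ∧
        0 < (Bf W W' c₀ (pt x) (pt z)).re
    · refine (hprod.continuousAt (x := c₀)).congr ?_
      filter_upwards [key x y hx hy, key y z hy hzz, key x z hx hzz] with c h1 h2 h3
      have : 0 < (Bf W W' c (pt x) (pt y)).re ∧ 0 < (Bf W W' c (pt y) (pt z)).re ∧
        0 < (Bf W W' c (pt x) (pt z)).re := ⟨h1.2 hcond.1, h2.2 hcond.2.1, h3.2 hcond.2.2⟩
      exact (if_pos this).symm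
    · refine (continuousAt_const (y := (0 : ℂ))).congr ?_
      filter_upwards [key x y hx hy, key y z hy hzz, key x z hx hzz] with c h1 h2 h3
      have : ¬ (0 < (Bf W W' c (pt x) (pt y)).re ∧ 0 < (Bf W W' c (pt y) (pt z)).re ∧
        0 < (Bf W W' c (pt x) (pt z)).re) := fun h =>
        hcond ⟨h1.1 h.1, h2.1 h.2.1, h3.1 h.2.2⟩
      exact (if_neg this).symm

omit [TopologicalSpace X] [CompactSpace X] in
theorem Bf_unit (hb : ∀ c x, ‖c‖ = 1 → W c x = c ^ 2 * W 1 x)
    (hb' : ∀ c x, ‖c‖ = 1 → W' c x = c ^ 2 * W' 1 x) {c : ℂ} (hc : ‖c‖ = 1) (x y : X) :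
    Bf W W' c x y = Bf W W' 1 x y := by
  have h1 : c ^ 2 * conj (c ^ 2) = 1 := by
    rw [Complex.mul_conj, Complex.normSq_eq_norm_sq, norm_pow, hc]
    norm_num
  unfold Bf
  rw [hb c x hc, hb c y hc, hb' c x hc, hb' c y hc, map_mul, map_mul]
  linear_combination (W 1 x * conj (W 1 y) - conj (W' 1 x) * W' 1 y) * h1

omit [TopologicalSpace X] [CompactSpace X] in
theorem gap_unit (hb : ∀ c x, ‖c‖ = 1 → W c x = c ^ 2 * W 1 x)
    (hb' : ∀ c x, ‖c‖ = 1 → W' c x = c ^ 2 * W' 1 x) {c : ℂ} (hc : ‖c‖ = 1) (x : X) :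
    gap W W' c x = gap W W' 1 x := by
  have h : diag W W' c = diag W W' 1 := by
    funext y
    unfold diag
    rw [Bf_unit W W' hb hb' hc]
  unfold gap mx
  rw [h]

omit [TopologicalSpace X] [CompactSpace X] in
theorem gap_rot (r : X → X) (hWr : ∀ c x, W c (r x) = om * W c x)
    (hWr' : ∀ c x, W' c (r x) = conj om * W' c x) (c : ℂ) (x : X) :
    gap W W' c (r x) = gap W W' c x := by
  have h1 := om_mul_conj
  have h : Bf W W' c (r x) (r x) = Bf W W' c x x := by
    unfold Bf
    rw [hWr, hWr', map_mul, map_mul, Complex.conj_conj]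
    linear_combination (W c x * conj (W c x) - conj (W' c x) * W' c x) * h1
  unfold gap diag
  rw [h]

end

/-- the abstract topological theorem, with the two inputs as hypotheses -/
theorem top_main_aux
    (no_section : ∀ (S : ℂ → ℂ) (_ : ContinuousOn S (closedBall 0 1))
      (_ : ∀ c ∈ closedBall (0 : ℂ) 1, S c ≠ 0)
      (_ : ∀ c : ℂ, ‖c‖ = 1 → S c = c ^ 6 * S 1), False)
    (cubic : ∀ {ι : Type} [Fintype ι] [DecidableEq ι] (r : ι → ι)
      (_ : ∀ x, r (r (r x)) = x) (w w' : ι → ℂ) (m : ι → ℝ) (_ : ∀ x, 0 ≤ m x)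
      (_ : ∀ x, m (r x) = m x) (_ : ∀ x, w (r x) = om * w x)
      (_ : ∀ x, w' (r x) = conj om * w' x)
      (_ : ∃ x, 0 < m x)
      (_ : ∀ x y, 0 < m x → 0 < m y → Pat (w x * conj (w y) - conj (w' x) * w' y))
      (_ : ∀ x y z, 0 < m x → 0 < m y → 0 < m z →
        0 < (w x * conj (w y) - conj (w' x) * w' y).re →
        0 < (w y * conj (w z) - conj (w' y) * w' z).re →
        0 < (w x * conj (w z) - conj (w' x) * w' z).re),
      (∑ x, ∑ y, ∑ z, term w w' m x y z) ≠ 0)
    {X : Type*} [TopologicalSpace X] [CompactSpace X] [Nonempty X]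
    (r : X → X) (hr3 : ∀ x, r (r (r x)) = x)
    (W W' : ℂ → X → ℂ) (hW : Continuous (Function.uncurry W))
    (hW' : Continuous (Function.uncurry W'))
    (hWr : ∀ c x, W c (r x) = om * W c x) (hWr' : ∀ c x, W' c (r x) = conj om * W' c x)
    (hb : ∀ c x, ‖c‖ = 1 → W c x = c ^ 2 * W 1 x) (hb' : ∀ c x, ‖c‖ = 1 → W' c x = c ^ 2 * W' 1 x)
    (hpat : ∀ c ∈ closedBall (0 : ℂ) 1, ∀ x y, Maxi W W' c x → Maxi W W' c y →
      Pat (Bf W W' c x y))
    (htr : ∀ c ∈ closedBall (0 : ℂ) 1, ∀ x y z, Maxi W W' c x → Maxi W W' c y → Maxi W W' c z →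
      0 < (Bf W W' c x y).re → 0 < (Bf W W' c y z).re → 0 < (Bf W W' c x z).re) : False := by
  obtain ⟨e, he, hE⟩ := exists_eps W W' hW hW' hpat htr
  choose x₀ hx₀ using exists_gap_zero W W' hW hW'
  -- a finite cover of the disc
  obtain ⟨t, ht⟩ := (isCompact_closedBall (0 : ℂ) 1).elim_finite_subcover
    (fun c₀ : ℂ => {c : ℂ | gap W W' c (x₀ c₀) < e})
    (fun c₀ => isOpen_lt ((continuous_gap W W' hW hW').comp (f := fun c : ℂ => (c, x₀ c₀))
      (by fun_prop)) continuous_const)
    (fun c _ => mem_iUnion.2 ⟨c, by rw [mem_ofPred_eq, hx₀]; exact he⟩)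
  let pt : t × Fin 3 → X := fun p => ![x₀ p.1, r (x₀ p.1), r (r (x₀ p.1))] p.2
  let ρ : t × Fin 3 → t × Fin 3 := fun p => (p.1, p.2 + 1)
  have hρ3 : ∀ p, ρ (ρ (ρ p)) = p := by
    rintro ⟨i, j⟩
    fin_cases j <;> rfl
  have hpt : ∀ p, pt (ρ p) = r (pt p) := by
    rintro ⟨i, j⟩
    fin_cases j
    · rfl
    · rfl
    · exact (hr3 _).symm
  let S : ℂ → ℂ := fun c => ∑ x, ∑ y, ∑ z, term (fun i => W c (pt i)) (fun i => W' c (pt i))
      (fun i => max 0 (e - gap W W' c (pt i))) x y z
  refine no_section S ?_ ?_ ?_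
  · refine continuousOn_finsetSum _ fun x _ => continuousOn_finsetSum _ fun y _ =>
      continuousOn_finsetSum _ fun z _ => fun c hc => ContinuousAt.continuousWithinAt ?_
    exact continuousAt_term W W' pt hW hW' (fun x y z h1 h2 h3 => (hE c hc x y z h1 h2 h3).1) x y z
  · intro c hc
    have hm : ∀ p : t × Fin 3, 0 < max 0 (e - gap W W' c (pt p)) → gap W W' c (pt p) < e := by
      intro p hp
      by_contra hcon
      rw [max_eq_left (by linarith)] at hp
      exact lt_irrefl _ hp
    refine cubic ρ hρ3 _ _ _ (fun p => le_max_left _ _) ?_ ?_ ?_ ?_ ?_ ?_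
    · intro p
      simp only [hpt]
      rw [gap_rot W W' r hWr hWr']
    · intro p
      simp only [hpt]
      exact hWr c _
    · intro p
      simp only [hpt]
      exact hWr' c _
    · obtain ⟨c₀, hc₀, hlt⟩ : ∃ c₀ ∈ t, gap W W' c (x₀ c₀) < e := by
        have := ht hc
        simp only [mem_iUnion, exists_prop] at this
        exact this
      refine ⟨(⟨c₀, hc₀⟩, 0), ?_⟩
      refine lt_max_of_lt_right ?_
      change 0 < e - gap W W' c (x₀ c₀)
      linarith
    · intro x y hx hy
      exact (hE c hc (pt x) (pt y) (pt y) (hm x hx) (hm y hy) (hm y hy)).1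
    · intro x y z hx hy hz
      exact (hE c hc (pt x) (pt y) (pt z) (hm x hx) (hm y hy) (hm z hz)).2
  · intro c hc
    change (∑ x, ∑ y, ∑ z, term (fun i => W c (pt i)) (fun i => W' c (pt i))
      (fun i => max 0 (e - gap W W' c (pt i))) x y z) = c ^ 6 *
      ∑ x, ∑ y, ∑ z, term (fun i => W 1 (pt i)) (fun i => W' 1 (pt i))
      (fun i => max 0 (e - gap W W' 1 (pt i))) x y z
    rw [Finset.mul_sum]
    refine Finset.sum_congr rfl fun x _ => ?_
    rw [Finset.mul_sum]
    refine Finset.sum_congr rfl fun y _ => ?_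
    rw [Finset.mul_sum]
    refine Finset.sum_congr rfl fun z _ => ?_
    have hBu := fun x y => Bf_unit W W' hb hb' hc x y
    have h1 : ∀ x y : t × Fin 3, W c (pt x) * conj (W c (pt y)) -
        conj (W' c (pt x)) * W' c (pt y) = W 1 (pt x) * conj (W 1 (pt y)) -
        conj (W' 1 (pt x)) * W' 1 (pt y) := fun x y => hBu (pt x) (pt y)
    unfold term
    simp only [h1, gap_unit W W' hb hb' hc]
    split_ifs with h
    · rw [hb c (pt x) hc, hb c (pt y) hc, hb c (pt z) hc]
      ring
    · ring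

end Top

end Pool.Agent.Helper63.ML
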